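import Pool.Agent.TH71.JH.Base

set_option autoImplicit false

open Finset

namespace Pool.Agent.TH71.JH

lemma symm_add_block (S T : Finset ℕ) (N d : ℕ) (hS : S ⊆ range N) (hT : T ⊆ range N) :
    (symmDiff (S ∪ Ico N (N + d)) T).card = (symmDiff S T).card + d := by
  have h1 := card_symmDiff_add (S ∪ Ico N (N + d)) T
  have h2 := card_symmDiff_add S T
  have h3 : (S ∪ Ico N (N + d)) ∩ T = S ∩ T := by
    ext x
    simp only [mem_inter, mem_union, mem_Ico]
    constructor
    · rintro ⟨h4 | h4, h5⟩
      · exact ⟨h4, h5⟩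
      · have := mem_range.1 (hT h5)
        omega
    · rintro ⟨h4, h5⟩
      exact ⟨Or.inl h4, h5⟩
  have h4 : (S ∪ Ico N (N + d)).card = S.card + d := by
    rw [card_union_of_disjoint, Nat.card_Ico]
    · omega
    · rw [disjoint_left]
      intro x hx hx'
      have := mem_range.1 (hS hx)
      rw [mem_Ico] at hx'
      omega
  rw [h3, h4] at h1
  omega

lemma tree_sets (d : ℕ) : ∀ (n : ℕ) (V : Type) [Fintype V] (T : SimpleGraph V), T.IsTree →
    Fintype.card V = n + 1 → ∃ f : V → Finset ℕ, (∀ v, f v ⊆ range (n * d)) ∧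
      (∀ v w, T.Adj v w → (symmDiff (f v) (f w)).card = d) ∧
      (∀ v w, v ≠ w → ¬ T.Adj v w → ∃ r, 2 ≤ r ∧ (symmDiff (f v) (f w)).card = r * d) := by
  intro n
  induction n with
  | zero =>
    intro V _ T hT hV
    have hsub : Subsingleton V := by
      rw [← Fintype.card_le_one_iff_subsingleton]
      omega
    refine ⟨fun _ => ∅, fun v => Finset.empty_subset _, ?_, ?_⟩
    · intro v w hvw
      exact absurd (Subsingleton.elim v w) hvw.ne
    · intro v w hvw
      exact absurd (Subsingleton.elim v w) hvw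
  | succ n ih =>
    intro V _ T hT hV
    classical
    have hnt : Nontrivial V := by
      rw [← Fintype.one_lt_card_iff_nontrivial]
      omega
    obtain ⟨l, hl⟩ := hT.exists_vert_degree_one_of_nontrivial
    have hconn := hT.connected.induce_compl_singleton_of_degree_eq_one hl
    have hT' : (T.induce ({l}ᶜ : Set V)).IsTree := ⟨hconn, hT.isAcyclic.induce _⟩
    obtain ⟨u, hu, huu⟩ := SimpleGraph.degree_eq_one_iff_existsUnique_adj.1 hl
    have hu' : u ∈ ({l}ᶜ : Set V) := fun h => hu.ne h.symm
    have hcard : Fintype.card ({l}ᶜ : Set V) = n + 1 := by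
      rw [Fintype.card_compl_set, hV]
      simp
    obtain ⟨f, hf1, hf2, hf3⟩ := ih _ (T.induce ({l}ᶜ : Set V)) hT' hcard
    have hmem : ∀ v, v ≠ l → v ∈ ({l}ᶜ : Set V) := fun v h => h
    let g : V → Finset ℕ := fun v => if h : v = l then f ⟨u, hu'⟩ ∪ Ico (n * d) (n * d + d)
      else f ⟨v, hmem v h⟩
    have hgl : g l = f ⟨u, hu'⟩ ∪ Ico (n * d) (n * d + d) := by
      simp only [g]
      rw [dif_pos trivial]
    have hg : ∀ v (h : v ≠ l), g v = f ⟨v, hmem v h⟩ := by
      intro v h
      simp only [g]
      rw [dif_neg h]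
    have hlw : ∀ w (h : w ≠ l), (symmDiff (g l) (g w)).card =
        (symmDiff (f ⟨u, hu'⟩) (f ⟨w, hmem w h⟩)).card + d := by
      intro w h
      rw [hgl, hg w h, symm_add_block _ _ _ _ (hf1 _) (hf1 _)]
    -- the pair `l, w`
    have h1 : ∀ w, T.Adj l w → (symmDiff (g l) (g w)).card = d := by
      intro w hw
      have hwu := huu w hw
      subst hwu
      rw [hlw w hw.ne', symmDiff_self, Finset.bot_eq_empty, Finset.card_empty, Nat.zero_add]
    have h2 : ∀ w, w ≠ l → ¬ T.Adj l w → ∃ r, 2 ≤ r ∧ (symmDiff (g l) (g w)).card = r * d := by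
      intro w hwl hw
      have hwu : u ≠ w := by
        rintro rfl
        exact hw hu
      rw [hlw w hwl]
      have hne : (⟨u, hu'⟩ : ({l}ᶜ : Set V)) ≠ ⟨w, hmem w hwl⟩ := by
        intro h
        exact hwu (congrArg Subtype.val h)
      by_cases hadj : (T.induce ({l}ᶜ : Set V)).Adj ⟨u, hu'⟩ ⟨w, hmem w hwl⟩
      · refine ⟨2, le_refl _, ?_⟩
        rw [hf2 _ _ hadj]
        ring
      · obtain ⟨r, hr, hr'⟩ := hf3 _ _ hne hadj
        refine ⟨r + 1, by omega, ?_⟩
        rw [hr']
        ring
    refine ⟨g, ?_, ?_, ?_⟩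
    · intro v
      by_cases hv : v = l
      · subst hv
        rw [hgl]
        intro x hx
        rw [mem_range, Nat.succ_mul]
        rcases Finset.mem_union.1 hx with hx | hx
        · have := mem_range.1 (hf1 _ hx)
          omega
        · rw [mem_Ico] at hx
          omega
      · rw [hg v hv]
        intro x hx
        have := mem_range.1 (hf1 _ hx)
        rw [mem_range, Nat.succ_mul]
        omega
    · intro v w hvw
      by_cases hv : v = l
      · subst hv
        exact h1 w hvw
      · by_cases hw : w = l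
        · subst hw
          rw [symmDiff_comm]
          exact h1 v hvw.symm
        · rw [hg v hv, hg w hw]
          exact hf2 _ _ hvw
    · intro v w hne hvw
      by_cases hv : v = l
      · subst hv
        exact h2 w hne.symm hvw
      · by_cases hw : w = l
        · subst hw
          rw [symmDiff_comm]
          exact h2 v hne (fun h => hvw h.symm)
        · rw [hg v hv, hg w hw]
          exact hf3 _ _ (fun h => hne (congrArg Subtype.val h)) hvw

/-- the same in a given finite type -/
lemma tree_family (d n : ℕ) (V : Type) [Fintype V] (T : SimpleGraph V) (hT : T.IsTree)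
    (hV : Fintype.card V = n + 1) (α : Type) [Fintype α] [DecidableEq α]
    (hα : n * d ≤ Fintype.card α) : ∃ f : V → Finset α,
      (∀ v w, T.Adj v w → (symmDiff (f v) (f w)).card = d) ∧
      (∀ v w, v ≠ w → ¬ T.Adj v w → ∃ r, 2 ≤ r ∧ r * d ≤ n * d ∧
        (symmDiff (f v) (f w)).card = r * d) := by
  classical
  obtain ⟨f, hf1, hf2, hf3⟩ := tree_sets d n V T hT hV
  have hc : Fintype.card (Fin (n * d)) ≤ Fintype.card α := by
    rw [Fintype.card_fin]
    exact hα
  obtain ⟨ι⟩ := Function.Embedding.nonempty_of_card_le hc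
  let g : V → Finset (Fin (n * d)) := fun v => Finset.univ.filter fun i => i.1 ∈ f v
  have hg : ∀ v, (g v).map Fin.valEmbedding = f v := by
    intro v
    ext x
    simp only [g, Finset.mem_map, Finset.mem_filter, Finset.mem_univ, true_and,
      Fin.valEmbedding_apply]
    constructor
    · rintro ⟨i, hi, rfl⟩
      exact hi
    · intro hx
      exact ⟨⟨x, mem_range.1 (hf1 v hx)⟩, hx, rfl⟩
  have hcard : ∀ v w, (symmDiff ((g v).map ι) ((g w).map ι)).card =
      (symmDiff (f v) (f w)).card := by
    intro v w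
    rw [card_symmDiff_map, ← hg v, ← hg w, card_symmDiff_map]
  refine ⟨fun v => (g v).map ι, ?_, ?_⟩
  · intro v w hvw
    rw [hcard]
    exact hf2 v w hvw
  · intro v w hne hvw
    obtain ⟨r, hr, hr'⟩ := hf3 v w hne hvw
    refine ⟨r, hr, ?_, (hcard v w).trans hr'⟩
    rw [← hr']
    have h1 : symmDiff (f v) (f w) ⊆ range (n * d) := by
      intro x hx
      rcases Finset.mem_symmDiff.1 hx with ⟨h, -⟩ | ⟨h, -⟩
      · exact hf1 _ h
      · exact hf1 _ h
    have := Finset.card_le_card h1
    rwa [card_range] at this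

end Pool.Agent.TH71.JH
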