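import Mathlib

set_option autoImplicit false

open Finset

namespace Pool.Agent.TH71.JH

/-- Graph on all subsets of `α` whose size lies in `Λ`: two sets are adjacent when the size of
their symmetric difference lies in `D`. -/
def Layer (α : Type) [DecidableEq α] (Λ D : Set ℕ) :
    SimpleGraph {A : Finset α // A.card ∈ Λ} where
  Adj A B := A ≠ B ∧ (symmDiff A.1 B.1).card ∈ D
  symm := ⟨fun A B h => ⟨h.1.symm, by rw [symmDiff_comm]; exact h.2⟩⟩
  loopless := ⟨fun A h => h.1 rfl⟩

/-- Graph on all words `α → A`: adjacent when the Hamming distance lies in `D`. -/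
def Word (α A : Type) [Fintype α] [DecidableEq A] (D : Set ℕ) : SimpleGraph (α → A) where
  Adj x y := x ≠ y ∧ hammingDist x y ∈ D
  symm := ⟨fun A B h => ⟨h.1.symm, by rw [hammingDist_comm]; exact h.2⟩⟩
  loopless := ⟨fun A h => h.1 rfl⟩

lemma mkEmb {U V : Type} (F : SimpleGraph U) (G : SimpleGraph V) (f : U → V)
    (h1 : ∀ v w, F.Adj v w → G.Adj (f v) (f w))
    (h2 : ∀ v w, v ≠ w → ¬ F.Adj v w → f v ≠ f w ∧ ¬ G.Adj (f v) (f w)) :
    F.IsIndContained G := by
  have hinj : Function.Injective f := by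
    intro v w hvw
    by_contra hne
    by_cases hadj : F.Adj v w
    · exact (h1 v w hadj).ne hvw
    · exact (h2 v w hne hadj).1 hvw
  refine ⟨⟨⟨f, hinj⟩, ?_⟩⟩
  intro v w
  show G.Adj (f v) (f w) ↔ F.Adj v w
  constructor
  · intro h
    by_contra hadj
    have hne : v ≠ w := by
      rintro rfl
      exact G.loopless.irrefl _ h
    exact (h2 v w hne hadj).2 h
  · exact h1 v w

lemma noClique {V : Type} (G : SimpleGraph V) (k : ℕ) (hG : G.CliqueFree (k + 1))
    (f : Fin (k + 1) → V) (h : ∀ i j, i ≠ j → G.Adj (f i) (f j)) : False := by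
  classical
  have hinj : Function.Injective f := by
    intro i j hij
    by_contra hne
    exact (h i j hne).ne hij
  refine hG (Finset.univ.map ⟨f, hinj⟩) ⟨?_, ?_⟩
  · intro x hx y hy hxy
    rw [Finset.coe_map] at hx hy
    obtain ⟨i, -, rfl⟩ := hx
    obtain ⟨j, -, rfl⟩ := hy
    exact h i j (fun e => hxy (by rw [e]))
  · rw [Finset.card_map, Finset.card_univ, Fintype.card_fin]

lemma symmDiff_disjSum {β γ : Type} [DecidableEq β] [DecidableEq γ] (s s' : Finset β)
    (t t' : Finset γ) :
    symmDiff (s.disjSum t) (s'.disjSum t') = (symmDiff s s').disjSum (symmDiff t t') := by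
  ext x
  rcases x with x | x <;> simp [Finset.mem_symmDiff]

lemma card_symmDiff_map {β α : Type} [DecidableEq β] [DecidableEq α] (ι : β ↪ α)
    (s t : Finset β) : (symmDiff (s.map ι) (t.map ι)).card = (symmDiff s t).card := by
  have : symmDiff (s.map ι) (t.map ι) = (symmDiff s t).map ι := by
    ext x
    simp only [Finset.mem_symmDiff, Finset.mem_map]
    constructor
    · rintro (⟨⟨a, ha, rfl⟩, h⟩ | ⟨⟨a, ha, rfl⟩, h⟩)
      · exact ⟨a, Or.inl ⟨ha, fun hb => h ⟨a, hb, rfl⟩⟩, rfl⟩
      · exact ⟨a, Or.inr ⟨ha, fun hb => h ⟨a, hb, rfl⟩⟩, rfl⟩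
    · rintro ⟨a, ⟨ha, hb⟩ | ⟨ha, hb⟩, rfl⟩
      · refine Or.inl ⟨⟨a, ha, rfl⟩, ?_⟩
        rintro ⟨b, hb', hh⟩
        exact hb (ι.injective hh ▸ hb')
      · refine Or.inr ⟨⟨a, ha, rfl⟩, ?_⟩
        rintro ⟨b, hb', hh⟩
        exact hb (ι.injective hh ▸ hb')
  rw [this, Finset.card_map]

lemma card_symmDiff_add {α : Type} [DecidableEq α] (s t : Finset α) :
    (symmDiff s t).card + 2 * (s ∩ t).card = s.card + t.card := by
  have h1 : (symmDiff s t).card = (s \ t).card + (t \ s).card := by
    rw [symmDiff_def, Finset.sup_eq_union, Finset.card_union_of_disjoint]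
    exact disjoint_sdiff_sdiff
  have h2 := Finset.card_sdiff_add_card_inter s t
  have h3 := Finset.card_sdiff_add_card_inter t s
  rw [Finset.inter_comm t s] at h3
  omega

/-- the complementary family -/
lemma family_compl {ι α : Type} [Fintype α] [DecidableEq α] (f : ι → Finset α) (l : ℕ)
    (hl : l ≤ Fintype.card α) (hf : ∀ i, (f i).card = Fintype.card α - l) :
    ∃ g : ι → Finset α, (∀ i, (g i).card = l) ∧
      ∀ i j, (symmDiff (g i) (g j)).card = (symmDiff (f i) (f j)).card := by
  refine ⟨fun i => (f i)ᶜ, fun i => ?_, fun i j => ?_⟩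
  · rw [Finset.card_compl, hf i]
    omega
  · rw [compl_symmDiff_compl]

/-- sunflowers with `M` petals of size `h` -/
lemma sunflower (α : Type) [Fintype α] [DecidableEq α] (M h l : ℕ) (h1 : h ≤ l)
    (h2 : l - h + M * h ≤ Fintype.card α) :
    ∃ f : Fin M → Finset α, (∀ i, (f i).card = l) ∧
      ∀ i j, i ≠ j → (symmDiff (f i) (f j)).card = 2 * h := by
  classical
  have hc : Fintype.card (Fin (l - h) ⊕ (Fin M × Fin h)) ≤ Fintype.card α := by
    simp only [Fintype.card_sum, Fintype.card_prod, Fintype.card_fin]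
    exact h2
  obtain ⟨ι⟩ := Function.Embedding.nonempty_of_card_le hc
  refine ⟨fun i => ((Finset.univ : Finset (Fin (l - h))).disjSum
    (({i} : Finset (Fin M)) ×ˢ (Finset.univ : Finset (Fin h)))).map ι, ?_, ?_⟩
  · intro i
    rw [Finset.card_map, Finset.card_disjSum, Finset.card_product]
    simp
    omega
  · intro i j hij
    rw [card_symmDiff_map, symmDiff_disjSum, Finset.card_disjSum, symmDiff_self]
    have h3 := card_symmDiff_add (({i} : Finset (Fin M)) ×ˢ (Finset.univ : Finset (Fin h)))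
      (({j} : Finset (Fin M)) ×ˢ (Finset.univ : Finset (Fin h)))
    have h4 : (({i} : Finset (Fin M)) ×ˢ (Finset.univ : Finset (Fin h))) ∩
      (({j} : Finset (Fin M)) ×ˢ (Finset.univ : Finset (Fin h))) = ∅ := by
      ext x
      simp only [Finset.mem_inter, Finset.mem_product, Finset.mem_singleton, Finset.mem_univ,
        and_true, Finset.notMem_empty, iff_false, not_and]
      intro h5 h6
      exact hij (h5.symm.trans h6)
    rw [h4] at h3
    simp only [Finset.card_product, Finset.card_singleton, Finset.card_univ, Fintype.card_fin,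
      Finset.card_empty] at h3
    simp only [Finset.bot_eq_empty, Finset.card_empty]
    omega

lemma clique_family (α : Type) [Fintype α] [DecidableEq α] (k h l : ℕ) (h1 : h ≤ l)
    (h2 : l + h ≤ Fintype.card α) (h3 : 2 * (k * h) ≤ Fintype.card α) :
    ∃ f : Fin (k + 1) → Finset α, (∀ i, (f i).card = l) ∧
      ∀ i j, i ≠ j → (symmDiff (f i) (f j)).card = 2 * h := by
  have e : (k + 1) * h = k * h + h := by ring
  by_cases hl : l < k * h
  · apply sunflower α (k + 1) h l h1
    omega
  · obtain ⟨f, hf1, hf2⟩ := sunflower α (k + 1) h (Fintype.card α - l) (by omega) (by omega)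
    obtain ⟨g, hg1, hg2⟩ := family_compl f l (by omega) hf1
    exact ⟨g, hg1, fun i j hij => (hg2 i j).trans (hf2 i j hij)⟩

end Pool.Agent.TH71.JH
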