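import Pool.Agent.TH71.JH.Emb

set_option autoImplicit false

open Finset

namespace Pool.Agent.TH71.JH

/-- in a layer close to the middle, sets with the same trace on a suitable small set have a large
intersection -/
lemma trace_lemma (α : Type) [Fintype α] [DecidableEq α] (h l c : ℕ) (h1 : h ≤ l)
    (h1' : l + h ≤ Fintype.card α) (h2 : l < h + c) (h3 : Fintype.card α < l + h + c) :
    ∃ e : Finset α → Fin (2 ^ (3 * c)), ∀ A B : Finset α, A.card = l → B.card = l → A ≠ B →
      e A = e B → (symmDiff A B).card < 2 * h := by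
  classical
  set M := 2 * l - 2 * c with hM
  have hMn : M ≤ (Finset.univ : Finset α).card := by
    rw [Finset.card_univ]
    omega
  obtain ⟨N, -, hN⟩ := Finset.exists_subset_card_eq hMn
  have hK : (Nᶜ).powerset.card ≤ Fintype.card (Fin (2 ^ (3 * c))) := by
    rw [Finset.card_powerset, Fintype.card_fin, Finset.card_compl, hN]
    apply Nat.pow_le_pow_right (by norm_num)
    omega
  rw [← Fintype.card_coe] at hK
  obtain ⟨g⟩ := Function.Embedding.nonempty_of_card_le hK
  refine ⟨fun A => g ⟨A ∩ Nᶜ, Finset.mem_powerset.2 Finset.inter_subset_right⟩, ?_⟩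
  intro A B hA hB hne hAB
  have hI : A ∩ Nᶜ = B ∩ Nᶜ := by
    have := g.injective hAB
    exact congrArg Subtype.val this
  have hs := card_symmDiff_add A B
  have hA1 := Finset.card_sdiff_add_card_inter A N
  have hB1 := Finset.card_sdiff_add_card_inter B N
  have hAs : A \ N = A ∩ Nᶜ := Finset.sdiff_eq_inter_compl A N
  have hBs : B \ N = B ∩ Nᶜ := Finset.sdiff_eq_inter_compl B N
  have hAB1 := Finset.card_sdiff_add_card_inter (A ∩ B) N
  have hABs : (A ∩ B) \ N = A ∩ Nᶜ := by
    ext x
    simp only [Finset.mem_sdiff, Finset.mem_inter, Finset.mem_compl]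
    constructor
    · rintro ⟨⟨h4, -⟩, h5⟩
      exact ⟨h4, h5⟩
    · rintro ⟨h4, h5⟩
      have : x ∈ B ∩ Nᶜ := hI ▸ Finset.mem_inter.2 ⟨h4, Finset.mem_compl.2 h5⟩
      exact ⟨⟨h4, (Finset.mem_inter.1 this).1⟩, h5⟩
  have hun := Finset.card_union_add_card_inter (A ∩ N) (B ∩ N)
  have hun2 : ((A ∩ N) ∪ (B ∩ N)).card ≤ N.card :=
    Finset.card_le_card (Finset.union_subset Finset.inter_subset_right Finset.inter_subset_right)
  have hin : (A ∩ N) ∩ (B ∩ N) = (A ∩ B) ∩ N := by
    ext x
    simp only [Finset.mem_inter]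
    tauto
  rw [hin] at hun
  rw [hABs] at hAB1
  rw [hAs] at hA1
  rw [hBs, ← hI] at hB1
  by_cases hlc : l < c
  · exfalso
    have hN0 : N = ∅ := Finset.card_eq_zero.1 (by omega)
    rw [hN0, Finset.compl_empty, Finset.inter_univ, Finset.inter_univ] at hI
    exact hne hI
  · omega

lemma color_layer (α : Type) [Fintype α] [DecidableEq α] (Λ D : Set ℕ) (h c : ℕ) (hc : 0 < c)
    (hmin : ∀ A B : Finset α, A.card ∈ Λ → B.card ∈ Λ → A ≠ B → (symmDiff A B).card ∈ D →
      (symmDiff A B).card % 2 = 0 → 2 * h ≤ (symmDiff A B).card)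
    (hmid : ∀ l ∈ Λ, h ≤ l → l + h ≤ Fintype.card α → l < h + c ∧ Fintype.card α < l + h + c) :
    (Layer α Λ D).Colorable (6 * c * 2 ^ (3 * c)) := by
  classical
  have hex : ∀ l : ℕ, ∃ e : Finset α → Fin (2 ^ (3 * c)), l ∈ Λ → h ≤ l → l + h ≤ Fintype.card α →
      ∀ A B : Finset α, A.card = l → B.card = l → A ≠ B →
      e A = e B → (symmDiff A B).card < 2 * h := by
    intro l
    by_cases hl : l ∈ Λ ∧ h ≤ l ∧ l + h ≤ Fintype.card α
    · obtain ⟨h4, h5⟩ := hmid l hl.1 hl.2.1 hl.2.2
      obtain ⟨e, he⟩ := trace_lemma α h l c hl.2.1 hl.2.2 h4 h5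
      exact ⟨e, fun _ _ _ => he⟩
    · exact ⟨fun _ => ⟨0, by positivity⟩, fun h4 h5 h6 => absurd ⟨h4, h5, h6⟩ hl⟩
  choose e he using hex
  have hcol : (Layer α Λ D).Coloring (Fin 2 × Fin 3 × Fin c × Fin (2 ^ (3 * c))) := by
    refine SimpleGraph.Coloring.mk (fun A => (⟨A.1.card % 2, Nat.mod_lt _ (by norm_num)⟩,
      if A.1.card < h then 0 else if Fintype.card α < A.1.card + h then 1 else 2,
      ⟨(A.1.card - h) % c, Nat.mod_lt _ hc⟩, e A.1.card A.1)) ?_
    rintro ⟨A, hA⟩ ⟨B, hB⟩ ⟨hne, hD⟩ heq
    simp only [Prod.mk.injEq, Fin.mk.injEq] at heq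
    obtain ⟨h1, h2, h3, h4⟩ := heq
    have hne' : A ≠ B := fun h5 => hne (Subtype.ext h5)
    have hs := card_symmDiff_add A B
    change (symmDiff A B).card ∈ D at hD
    have h2h := hmin A B hA hB hne' hD (by omega)
    have hAn := Finset.card_le_univ A
    have hBn := Finset.card_le_univ B
    by_cases hAl : A.card < h
    · rw [if_pos hAl] at h2
      have hBl : B.card < h := by
        by_contra hcon
        rw [if_neg hcon] at h2
        split_ifs at h2 <;> simp at h2
      omega
    · rw [if_neg hAl] at h2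
      have hBl : ¬ B.card < h := by
        intro hcon
        rw [if_pos hcon] at h2
        split_ifs at h2 <;> simp at h2
      rw [if_neg hBl] at h2
      by_cases hAh : Fintype.card α < A.card + h
      · have hBh : Fintype.card α < B.card + h := by
          by_contra hcon
          rw [if_pos hAh, if_neg hcon] at h2
          simp at h2
        have hc2 : (symmDiff Aᶜ Bᶜ).card = (symmDiff A B).card := by rw [compl_symmDiff_compl]
        have hs2 := card_symmDiff_add Aᶜ Bᶜ
        rw [Finset.card_compl, Finset.card_compl] at hs2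
        omega
      · have hBh : ¬ Fintype.card α < B.card + h := by
          intro hcon
          rw [if_neg hAh, if_pos hcon] at h2
          simp at h2
        obtain ⟨h5, h6⟩ := hmid A.card hA (by omega) (by omega)
        obtain ⟨h7, h8⟩ := hmid B.card hB (by omega) (by omega)
        rw [Nat.mod_eq_of_lt (by omega), Nat.mod_eq_of_lt (by omega)] at h3
        have hcard : A.card = B.card := by omega
        rw [← hcard] at h4
        have := he A.card hA (by omega) (by omega) A B rfl hcard.symm hne' h4
        omega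
  have := hcol.colorable
  simp only [Fintype.card_prod, Fintype.card_fin] at this
  refine this.mono (le_of_eq ?_)
  ring

/-- Part 1. -/
theorem layer_main {m : ℕ} (F : SimpleGraph (Fin m)) (hF : F.IsBipartite) (k : ℕ) :
    ∃ C : ℕ, ∀ (α : Type) [Fintype α] [DecidableEq α] (Λ D : Set ℕ),
      (Layer α Λ D).CliqueFree (k + 1) → ¬ F.IsIndContained (Layer α Λ D) →
      (Layer α Λ D).Colorable C := by
  classical
  obtain ⟨col⟩ := hF
  let c : Fin m → Bool := fun v => decide (col v = 1)
  have hc : ∀ v w, F.Adj v w → c v ≠ c w := by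
    intro v w hvw h
    apply col.valid hvw
    have h' : (col v = 1) ↔ (col w = 1) := by simpa [c] using h
    have h1 := (col v).isLt
    have h2 := (col w).isLt
    rw [Fin.ext_iff, Fin.ext_iff] at h'
    rw [Fin.ext_iff]
    simp only [Fin.val_one] at h'
    omega
  set cc := m * m + 1 with hcc
  set h0 := m * m + 2 * m + 2 with hh0
  refine ⟨2 ^ (2 * (k * h0)) + 6 * cc * 2 ^ (3 * cc), ?_⟩
  intro α _ _ Λ D hG hI
  by_cases hex : ∃ d, ∃ A B : Finset α, A.card ∈ Λ ∧ B.card ∈ Λ ∧ A ≠ B ∧
    (symmDiff A B).card ∈ D ∧ (symmDiff A B).card % 2 = 0 ∧ (symmDiff A B).card = d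
  swap
  · -- no even distances
    have := color_layer α Λ D (Fintype.card α + 1) cc (by omega) (by
      intro A B hA hB hne hD he
      exact absurd ⟨_, A, B, hA, hB, hne, hD, he, rfl⟩ hex) (by
      intro l hl h1 h2
      omega)
    exact this.mono (Nat.le_add_left _ _)
  · obtain ⟨A0, B0, hA0, hB0, hne0, hD0, he0, hd0⟩ := Nat.find_spec hex
    have hmin0 : ∀ A B : Finset α, A.card ∈ Λ → B.card ∈ Λ → A ≠ B → (symmDiff A B).card ∈ D →
      (symmDiff A B).card % 2 = 0 → Nat.find hex ≤ (symmDiff A B).card := by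
      intro A B hA hB hne hD he
      exact Nat.find_min' hex ⟨A, B, hA, hB, hne, hD, he, rfl⟩
    set d0 := Nat.find hex with hd0'
    obtain ⟨h, hh⟩ : ∃ h, d0 = 2 * h := ⟨d0 / 2, by omega⟩
    have hpos : 0 < d0 := by
      rw [← hd0, Finset.card_pos, Finset.nonempty_iff_ne_empty]
      intro h1
      exact hne0 (symmDiff_eq_bot.1 h1)
    have hdD : 2 * h ∈ D := by
      rw [← hh, ← hd0]
      exact hD0
    have hmin : ∀ A B : Finset α, A.card ∈ Λ → B.card ∈ Λ → A ≠ B → (symmDiff A B).card ∈ D →
      (symmDiff A B).card % 2 = 0 → 2 * h ≤ (symmDiff A B).card := by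
      intro A B hA hB hne hD he
      rw [← hh]
      exact hmin0 A B hA hB hne hD he
    by_cases hbad : ∃ l ∈ Λ, h ≤ l ∧ l + h ≤ Fintype.card α ∧
      ¬ (l < h + cc ∧ Fintype.card α < l + h + cc)
    · obtain ⟨l, hl, h1, h2, h3⟩ := hbad
      -- `n` is small, by the clique
      have hn : Fintype.card α < 2 * (k * h) := by
        by_contra hcon
        obtain ⟨f, hf1, hf2⟩ := clique_family α k h l h1 h2 (by omega)
        refine noClique (Layer α Λ D) k hG (fun i => ⟨f i, by rw [hf1 i]; exact hl⟩) ?_
        intro i j hij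
        refine ⟨?_, ?_⟩
        · intro h4
          have h5 : f i = f j := congrArg Subtype.val h4
          have h6 := hf2 i j hij
          rw [h5, symmDiff_self, Finset.bot_eq_empty, Finset.card_empty] at h6
          omega
        · show (symmDiff (f i) (f j)).card ∈ D
          rw [hf2 i j hij]
          exact hdD
      have hh0' : h < h0 := by
        by_contra hcon
        obtain ⟨f, hf1, hf2, hf3⟩ := emb_layer' F c hc α h l h1 h2 (by omega) (by omega) (by omega)
        apply hI
        refine mkEmb F (Layer α Λ D) (fun v => ⟨f v, by rw [hf1 v]; exact hl⟩) ?_ ?_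
        · intro v w hvw
          refine ⟨?_, ?_⟩
          · intro h4
            have h5 : f v = f w := congrArg Subtype.val h4
            have h6 := hf2 v w hvw
            rw [h5, symmDiff_self, Finset.bot_eq_empty, Finset.card_empty] at h6
            omega
          · show (symmDiff (f v) (f w)).card ∈ D
            rw [hf2 v w hvw]
            exact hdD
        · intro v w hne hvw
          obtain ⟨h4, h5⟩ := hf3 v w hne hvw
          have h6 : f v ≠ f w := by
            intro h7
            rw [h7, symmDiff_self, Finset.bot_eq_empty, Finset.card_empty] at h4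
            omega
          refine ⟨fun h7 => h6 (congrArg Subtype.val h7), ?_⟩
          rintro ⟨-, h7⟩
          change (symmDiff (f v) (f w)).card ∈ D at h7
          have h8 := card_symmDiff_add (f v) (f w)
          rw [hf1, hf1] at h8
          have h9 := hmin (f v) (f w) (by rw [hf1]; exact hl) (by rw [hf1]; exact hl) h6 h7
            (by omega)
          omega
      have hcol : (Layer α Λ D).Coloring (Finset α) := by
        refine SimpleGraph.Coloring.mk (fun A => A.1) ?_
        intro A B hAB heq
        exact hAB.1 (Subtype.ext heq)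
      have h4 := hcol.colorable
      rw [Fintype.card_finset] at h4
      refine h4.mono ?_
      have h5 : k * h ≤ k * h0 := Nat.mul_le_mul_left k hh0'.le
      have h6 : 2 ^ Fintype.card α ≤ 2 ^ (2 * (k * h0)) :=
        Nat.pow_le_pow_right (by norm_num) (by omega)
      omega
    · have := color_layer α Λ D h cc (by omega) hmin (by
        intro l hl h1 h2
        by_contra hcon
        exact hbad ⟨l, hl, h1, h2, hcon⟩)
      exact this.mono (Nat.le_add_left _ _)

end Pool.Agent.TH71.JH
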