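import Pool.Agent.TH71.JH.Base

set_option autoImplicit false

open Finset

namespace Pool.Agent.TH71.JH

open Classical in
/-- the labels at `v`: `v` itself and the non-neighbours of the other colour -/
noncomputable def Z {m : ℕ} (F : SimpleGraph (Fin m)) (c : Fin m → Bool) (v : Fin m) :
    Finset (Fin m) :=
  Finset.univ.filter fun u => u = v ∨ (c u ≠ c v ∧ ¬ F.Adj u v)

lemma mem_Z {m : ℕ} (F : SimpleGraph (Fin m)) (c : Fin m → Bool) (v u : Fin m) :
    u ∈ Z F c v ↔ u = v ∨ (c u ≠ c v ∧ ¬ F.Adj u v) := by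
  simp [Z]

/-- pairs (vertex of colour `false`, vertex of colour `true`) -/
noncomputable def Y {m : ℕ} (F : SimpleGraph (Fin m)) (c : Fin m → Bool) (v : Fin m) :
    Finset (Fin m × Fin m) :=
  if c v = false then {v} ×ˢ Z F c v else Z F c v ×ˢ {v}

lemma card_Y {m : ℕ} (F : SimpleGraph (Fin m)) (c : Fin m → Bool) (v : Fin m) :
    (Y F c v).card = (Z F c v).card := by
  unfold Y
  split_ifs <;> simp

lemma card_Z_le {m : ℕ} (F : SimpleGraph (Fin m)) (c : Fin m → Bool) (v : Fin m) :
    (Z F c v).card ≤ m := by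
  have := Finset.card_le_univ (Z F c v)
  rwa [Fintype.card_fin] at this

lemma one_le_card_Z {m : ℕ} (F : SimpleGraph (Fin m)) (c : Fin m → Bool) (v : Fin m) :
    1 ≤ (Z F c v).card := Finset.card_pos.2 ⟨v, (mem_Z F c v v).2 (Or.inl rfl)⟩

lemma Y_inter_same {m : ℕ} (F : SimpleGraph (Fin m)) (c : Fin m → Bool) (v w : Fin m)
    (hvw : v ≠ w) (hc : c v = c w) : Y F c v ∩ Y F c w = ∅ := by
  ext x
  simp only [Y, Finset.mem_inter, Finset.notMem_empty, iff_false, not_and]
  by_cases h : c v = false
  · rw [if_pos h, if_pos (hc ▸ h)]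
    simp only [Finset.mem_product, Finset.mem_singleton]
    rintro ⟨h1, -⟩ ⟨h2, -⟩
    exact hvw (h1.symm.trans h2)
  · rw [if_neg h, if_neg (fun h' => h (hc.trans h'))]
    simp only [Finset.mem_product, Finset.mem_singleton]
    rintro ⟨-, h1⟩ ⟨-, h2⟩
    exact hvw (h1.symm.trans h2)

open Classical in
lemma Y_inter_cross {m : ℕ} (F : SimpleGraph (Fin m)) (c : Fin m → Bool) (v w : Fin m)
    (hv : c v = false) (hw : c w = true) :
    (Y F c v ∩ Y F c w).card = if F.Adj v w then 0 else 1 := by
  have hw' : ¬ c w = false := by simp [hw]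
  have hne : v ≠ w := by
    rintro rfl
    exact hw' hv
  have hcc : c v ≠ c w := by simp [hv, hw]
  split_ifs with h
  · rw [Finset.card_eq_zero]
    ext ⟨x, y⟩
    simp only [Y, if_pos hv, if_neg hw', Finset.mem_inter, Finset.notMem_empty, iff_false, not_and,
      Finset.mem_product, Finset.mem_singleton, mem_Z]
    rintro ⟨rfl, h1⟩ h2 rfl
    rcases h2 with h2 | h2
    · exact hne h2
    · exact h2.2 h
  · rw [Finset.card_eq_one]
    refine ⟨(v, w), ?_⟩
    ext ⟨x, y⟩
    simp only [Y, if_pos hv, if_neg hw', Finset.mem_inter, Finset.mem_singleton, Prod.mk.injEq,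
      Finset.mem_product, mem_Z]
    constructor
    · rintro ⟨⟨rfl, -⟩, -, rfl⟩
      exact ⟨rfl, rfl⟩
    · rintro ⟨rfl, rfl⟩
      exact ⟨⟨rfl, Or.inr ⟨hcc.symm, fun h' => h h'.symm⟩⟩, Or.inr ⟨hcc, h⟩, rfl⟩

/-- the embedding in a layer -/
lemma emb_layer {m : ℕ} (F : SimpleGraph (Fin m)) (c : Fin m → Bool)
    (hc : ∀ v w, F.Adj v w → c v ≠ c w) (α : Type) [Fintype α] [DecidableEq α] (h l : ℕ)
    (h1 : h ≤ l) (h2 : l + h + m * m ≤ Fintype.card α) (h3 : m * m ≤ h) (h4 : 2 * m + 2 ≤ h) :
    ∃ f : Fin m → Finset α, (∀ v, (f v).card = l) ∧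
      (∀ v w, F.Adj v w → (symmDiff (f v) (f w)).card = 2 * h) ∧
      (∀ v w, v ≠ w → ¬ F.Adj v w → 0 < (symmDiff (f v) (f w)).card ∧
        (symmDiff (f v) (f w)).card < 2 * h) := by
  classical
  have hcard : Fintype.card ((Fin h ⊕ Fin h) ⊕ (Fin (l - h) ⊕ (Fin m × Fin m))) ≤
      Fintype.card α := by
    simp only [Fintype.card_sum, Fintype.card_prod, Fintype.card_fin]
    omega
  obtain ⟨ι⟩ := Function.Embedding.nonempty_of_card_le hcard
  have hcard2 : Fintype.card (Fin m × Fin m) ≤ Fintype.card (Fin h) := by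
    simp only [Fintype.card_prod, Fintype.card_fin]
    exact h3
  obtain ⟨g⟩ := Function.Embedding.nonempty_of_card_le hcard2
  let A1 : Fin m → Finset (Fin h) := fun v => if c v = false then ((Y F c v).map g)ᶜ else ∅
  let A2 : Fin m → Finset (Fin h) := fun v => if c v = false then ∅ else ((Y F c v).map g)ᶜ
  let f0 : Fin m → Finset ((Fin h ⊕ Fin h) ⊕ (Fin (l - h) ⊕ (Fin m × Fin m))) := fun v =>
    ((A1 v).disjSum (A2 v)).disjSum ((Finset.univ : Finset (Fin (l - h))).disjSum (Y F c v))
  have hY : ∀ v, (Y F c v).card ≤ m := fun v => (card_Y F c v).trans_le (card_Z_le F c v)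
  have hY1 : ∀ v, 1 ≤ (Y F c v).card := fun v => (one_le_card_Z F c v).trans_eq (card_Y F c v).symm
  have hcompl : ∀ v, (((Y F c v).map g)ᶜ).card = h - (Y F c v).card := by
    intro v
    rw [Finset.card_compl, Finset.card_map, Fintype.card_fin]
  have hd : ∀ v w, (symmDiff (f0 v) (f0 w)).card =
      (symmDiff (A1 v) (A1 w)).card + (symmDiff (A2 v) (A2 w)).card +
        (symmDiff (Y F c v) (Y F c w)).card := by
    intro v w
    simp only [f0, symmDiff_disjSum, Finset.card_disjSum, symmDiff_self, Finset.bot_eq_empty,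
      Finset.card_empty, Nat.zero_add]
  have hmm : ∀ v w, (symmDiff (((Y F c v).map g)ᶜ) (((Y F c w).map g)ᶜ)).card =
      (symmDiff (Y F c v) (Y F c w)).card := by
    intro v w
    rw [compl_symmDiff_compl, card_symmDiff_map]
  have hsame : ∀ v w, v ≠ w → c v = c w → 0 < (symmDiff (f0 v) (f0 w)).card ∧
      (symmDiff (f0 v) (f0 w)).card < 2 * h := by
    intro v w hvw hcvw
    have e := card_symmDiff_add (Y F c v) (Y F c w)
    rw [Y_inter_same F c v w hvw hcvw, Finset.card_empty] at e
    have := hY v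
    have := hY w
    have := hY1 v
    rw [hd]
    by_cases hv : c v = false
    · have hw : c w = false := hcvw ▸ hv
      simp only [A1, A2, if_pos hv, if_pos hw, hmm, symmDiff_self, Finset.bot_eq_empty,
        Finset.card_empty]
      omega
    · have hw : ¬ c w = false := fun h' => hv (hcvw.trans h')
      simp only [A1, A2, if_neg hv, if_neg hw, hmm, symmDiff_self, Finset.bot_eq_empty,
        Finset.card_empty]
      omega
  have hcross : ∀ v w, c v = false → c w = true →
      (symmDiff (f0 v) (f0 w)).card + 2 * (if F.Adj v w then 0 else 1) = 2 * h := by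
    intro v w hv hw
    have hw' : ¬ c w = false := by simp [hw]
    have e := card_symmDiff_add (Y F c v) (Y F c w)
    rw [Y_inter_cross F c v w hv hw] at e
    have := hY v
    have := hY w
    have := hY1 v
    have := hY1 w
    rw [hd]
    have e1 : symmDiff (A1 v) (A1 w) = ((Y F c v).map g)ᶜ := by
      simp only [A1, if_pos hv, if_neg hw']
      exact symmDiff_bot _
    have e2 : symmDiff (A2 v) (A2 w) = ((Y F c w).map g)ᶜ := by
      simp only [A2, if_pos hv, if_neg hw']
      exact bot_symmDiff _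
    rw [e1, e2, hcompl, hcompl]
    omega
  refine ⟨fun v => (f0 v).map ι, ?_, ?_, ?_⟩
  · intro v
    rw [Finset.card_map]
    have := hY v
    have := hY1 v
    simp only [f0, Finset.card_disjSum, Finset.card_univ, Fintype.card_fin]
    by_cases hv : c v = false
    · simp only [A1, A2, if_pos hv, hcompl, Finset.card_empty]
      omega
    · simp only [A1, A2, if_neg hv, hcompl, Finset.card_empty]
      omega
  · intro v w hvw
    rw [card_symmDiff_map]
    have hne := hc v w hvw
    cases hv : c v
    · have hw : c w = true := by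
        cases hw : c w
        · exact absurd (hv.trans hw.symm) hne
        · rfl
      have := hcross v w hv hw
      rw [if_pos hvw] at this
      omega
    · have hw : c w = false := by
        cases hw : c w
        · rfl
        · exact absurd (hv.trans hw.symm) hne
      have := hcross w v hw hv
      rw [if_pos hvw.symm] at this
      rw [symmDiff_comm]
      omega
  · intro v w hne hvw
    rw [card_symmDiff_map]
    cases hv : c v <;> cases hw : c w
    · exact hsame v w hne (hv.trans hw.symm)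
    · have := hcross v w hv hw
      rw [if_neg hvw] at this
      omega
    · have := hcross w v hw hv
      rw [if_neg (fun h' => hvw h'.symm)] at this
      rw [symmDiff_comm]
      omega
    · exact hsame v w hne (hv.trans hw.symm)

/-- the embedding in a layer, either side -/
lemma emb_layer' {m : ℕ} (F : SimpleGraph (Fin m)) (c : Fin m → Bool)
    (hc : ∀ v w, F.Adj v w → c v ≠ c w) (α : Type) [Fintype α] [DecidableEq α] (h l : ℕ)
    (h1 : h ≤ l) (h1' : l + h ≤ Fintype.card α)
    (h2 : l + h + m * m ≤ Fintype.card α ∨ h + m * m ≤ l) (h3 : m * m ≤ h) (h4 : 2 * m + 2 ≤ h) :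
    ∃ f : Fin m → Finset α, (∀ v, (f v).card = l) ∧
      (∀ v w, F.Adj v w → (symmDiff (f v) (f w)).card = 2 * h) ∧
      (∀ v w, v ≠ w → ¬ F.Adj v w → 0 < (symmDiff (f v) (f w)).card ∧
        (symmDiff (f v) (f w)).card < 2 * h) := by
  rcases h2 with h2 | h2
  · exact emb_layer F c hc α h l h1 h2 h3 h4
  · obtain ⟨f, hf1, hf2, hf3⟩ := emb_layer F c hc α h (Fintype.card α - l) (by omega) (by omega)
      h3 h4
    obtain ⟨g, hg1, hg2⟩ := family_compl f l (by omega) hf1
    refine ⟨g, hg1, fun v w hvw => (hg2 v w).trans (hf2 v w hvw), fun v w hne hvw => ?_⟩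
    rw [hg2]
    exact hf3 v w hne hvw

end Pool.Agent.TH71.JH
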