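import Pool.Agent.TH71.JH.Col

set_option autoImplicit false

open Finset

namespace Pool.Agent.TH71.JH

/-- the word with letter `a` on `S` and `b` elsewhere -/
def ind {α A : Type} [DecidableEq α] (a b : A) (S : Finset α) : α → A :=
  fun i => if i ∈ S then a else b

lemma hd_ind {α A : Type} [Fintype α] [DecidableEq α] [DecidableEq A] (a b : A) (hab : a ≠ b)
    (S T : Finset α) : hammingDist (ind a b S) (ind a b T) = (symmDiff S T).card := by
  unfold hammingDist
  congr 1
  ext i
  rw [Finset.mem_filter, Finset.mem_symmDiff]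
  by_cases h1 : i ∈ S <;> by_cases h2 : i ∈ T <;> simp [ind, h1, h2, hab, hab.symm]

lemma hd_extend {α β A : Type} [Fintype α] [Fintype β] [DecidableEq A] (ι : β ↪ α) (z : A)
    (x y : β → A) :
    hammingDist (Function.extend ι x fun _ => z) (Function.extend ι y fun _ => z) =
      hammingDist x y := by
  classical
  unfold hammingDist
  rw [← Finset.card_map ι]
  congr 1
  ext a
  simp only [Finset.mem_filter, Finset.mem_univ, true_and, Finset.mem_map]
  constructor
  · intro h
    by_cases ha : ∃ b, ι b = a
    · obtain ⟨b, rfl⟩ := ha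
      refine ⟨b, ?_, rfl⟩
      rwa [ι.injective.extend_apply, ι.injective.extend_apply] at h
    · rw [Function.extend_apply' _ _ _ ha, Function.extend_apply' _ _ _ ha] at h
      exact absurd rfl h
  · rintro ⟨b, hb, rfl⟩
    rwa [ι.injective.extend_apply, ι.injective.extend_apply]

lemma exists_pair_supp {A β : Type} [Fintype β] [DecidableEq β] [DecidableEq A] (z : A)
    (x y : β → A) (S T : Finset β) (hx : ∀ b, x b ≠ z ↔ b ∈ S) (hy : ∀ b, y b ≠ z ↔ b ∈ T)
    (hxy : ∀ b, b ∈ S → b ∈ T → x b ≠ y b) : hammingDist x y = (S ∪ T).card := by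
  unfold hammingDist
  congr 1
  ext b
  simp only [Finset.mem_filter, Finset.mem_univ, true_and, Finset.mem_union]
  constructor
  · intro h
    by_contra hcon
    push Not at hcon
    have h1 : x b = z := by
      by_contra h1
      exact hcon.1 ((hx b).1 h1)
    have h2 : y b = z := by
      by_contra h2
      exact hcon.2 ((hy b).1 h2)
    exact h (h1.trans h2.symm)
  · intro h
    by_cases h1 : b ∈ S
    · by_cases h2 : b ∈ T
      · exact hxy b h1 h2
      · have h3 : y b = z := by
          by_contra h3
          exact h2 ((hy b).1 h3)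
        rw [h3]
        exact (hx b).2 h1
    · have h2 : b ∈ T := h.resolve_left h1
      have h3 : x b = z := by
        by_contra h3
        exact h1 ((hx b).1 h3)
      rw [h3]
      exact ((hy b).2 h2).symm

/-- equidistant words with an odd distance, three letters -/
lemma odd_clique (α A : Type) [Fintype α] [DecidableEq A] (z a b : A) (hza : a ≠ z)
    (hzb : b ≠ z) (hab : a ≠ b) (k p : ℕ) (hp : k ≤ p) (hn : (k + 1) * (p + 1) ≤ Fintype.card α) :
    ∃ f : Fin (k + 1) → α → A, ∀ i j, i ≠ j → hammingDist (f i) (f j) + 1 = 2 * p := by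
  classical
  have hc : Fintype.card ((Fin (k + 1) × Fin (k + 1)) ⊕ (Fin (k + 1) × Fin (p - k))) ≤
      Fintype.card α := by
    simp only [Fintype.card_sum, Fintype.card_prod, Fintype.card_fin]
    have : (k + 1) * (k + 1) + (k + 1) * (p - k) = (k + 1) * (p + 1) := by
      rw [← Nat.mul_add]
      congr 1
      omega
    omega
  obtain ⟨ι⟩ := Function.Embedding.nonempty_of_card_le hc
  let S : Fin (k + 1) → Finset (Fin (k + 1) × Fin (k + 1)) := fun j =>
    (Finset.univ.erase j).image fun x => (min x j, max x j)
  have hS : ∀ j, (S j).card = k := by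
    intro j
    rw [Finset.card_image_of_injOn]
    · rw [Finset.card_erase_of_mem (Finset.mem_univ _), Finset.card_univ, Fintype.card_fin]
      omega
    · intro x hx y hy hxy
      simp only [Prod.mk.injEq] at hxy
      obtain ⟨h1, h2⟩ := hxy
      rcases le_total x j with h3 | h3 <;> rcases le_total y j with h4 | h4
      · rw [min_eq_left h3, min_eq_left h4] at h1
        exact h1
      · rw [max_eq_right h3, max_eq_left h4] at h2
        rw [min_eq_left h3, min_eq_right h4] at h1
        rw [h1, h2]
      · rw [max_eq_left h3, max_eq_right h4] at h2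
        rw [min_eq_right h3, min_eq_left h4] at h1
        rw [← h1, h2]
      · rw [max_eq_left h3, max_eq_left h4] at h2
        exact h2
  have hSmem : ∀ j x, x ∈ S j ↔ x.1 < x.2 ∧ (x.1 = j ∨ x.2 = j) := by
    rintro j ⟨x, y⟩
    simp only [S, Finset.mem_image, Finset.mem_erase, Finset.mem_univ, and_true, Prod.mk.injEq]
    constructor
    · rintro ⟨u, hu, h1, h2⟩
      rcases lt_or_gt_of_ne hu with h3 | h3
      · rw [min_eq_left h3.le] at h1
        rw [max_eq_right h3.le] at h2
        subst h1
        subst h2
        exact ⟨h3, Or.inr rfl⟩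
      · rw [min_eq_right h3.le] at h1
        rw [max_eq_left h3.le] at h2
        subst h1
        subst h2
        exact ⟨h3, Or.inl rfl⟩
    · rintro ⟨h1, rfl | rfl⟩
      · exact ⟨y, h1.ne', min_eq_right h1.le, max_eq_left h1.le⟩
      · exact ⟨x, h1.ne, min_eq_left h1.le, max_eq_right h1.le⟩
  let P : Fin (k + 1) → Finset (Fin (k + 1) × Fin (p - k)) := fun j => {j} ×ˢ Finset.univ
  let f0 : Fin (k + 1) → ((Fin (k + 1) × Fin (k + 1)) ⊕ (Fin (k + 1) × Fin (p - k))) → A :=
    fun j => Sum.elim (fun x => if x ∈ S j then (if x.1 = j then a else b) else z)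
      (fun x => if x ∈ P j then a else z)
  have hsupp : ∀ j x, f0 j x ≠ z ↔ x ∈ (S j).disjSum (P j) := by
    intro j x
    rcases x with x | x
    · simp only [f0, Sum.elim_inl, Finset.inl_mem_disjSum]
      by_cases h1 : x ∈ S j
      · by_cases h2 : x.1 = j
        · simp [h1, h2, hza]
        · simp [h1, h2, hzb]
      · simp [h1]
    · simp only [f0, Sum.elim_inr, Finset.inr_mem_disjSum]
      by_cases h1 : x ∈ P j
      · simp [h1, hza]
      · simp [h1]
  have key : ∀ i j, i < j → hammingDist (f0 i) (f0 j) + 1 = 2 * p := by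
    intro i j hij
    have hint : (S i).disjSum (P i) ∩ (S j).disjSum (P j) = {Sum.inl (i, j)} := by
      ext x
      rcases x with ⟨x, y⟩ | ⟨x, y⟩
      · simp only [Finset.mem_inter, Finset.inl_mem_disjSum, hSmem, Finset.mem_singleton,
          Sum.inl.injEq, Prod.mk.injEq]
        constructor
        · rintro ⟨⟨h1, h2⟩, -, h3⟩
          rcases h2 with h2 | h2 <;> rcases h3 with h3 | h3
          · exact absurd (h2.symm.trans h3) hij.ne
          · exact ⟨h2, h3⟩
          · rw [h2, h3] at h1
            exact absurd h1 (not_lt.2 hij.le)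
          · exact absurd (h2.symm.trans h3) hij.ne
        · rintro ⟨rfl, rfl⟩
          exact ⟨⟨hij, Or.inl rfl⟩, hij, Or.inr rfl⟩
      · simp only [Finset.mem_inter, Finset.inr_mem_disjSum, P, Finset.mem_product,
          Finset.mem_singleton, Finset.mem_univ, and_true, reduceCtorEq, iff_false, not_and]
        intro h1 h2
        exact hij.ne (h1.symm.trans h2)
    rw [exists_pair_supp z (f0 i) (f0 j) _ _ (hsupp i) (hsupp j)]
    · have h1 := Finset.card_union_add_card_inter ((S i).disjSum (P i)) ((S j).disjSum (P j))
      rw [hint, Finset.card_singleton, Finset.card_disjSum, Finset.card_disjSum, hS, hS] at h1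
      simp only [P, Finset.card_product, Finset.card_singleton, Finset.card_univ,
        Fintype.card_fin] at h1
      simp only [P]
      omega
    · intro x h1 h2
      have h3 : x ∈ (S i).disjSum (P i) ∩ (S j).disjSum (P j) := Finset.mem_inter.2 ⟨h1, h2⟩
      rw [hint, Finset.mem_singleton] at h3
      subst h3
      rw [Finset.inl_mem_disjSum] at h1 h2
      simp only [f0, Sum.elim_inl, if_pos h1, if_pos h2, if_neg hij.ne]
      exact hab
  refine ⟨fun j => Function.extend ι (f0 j) fun _ => z, ?_⟩
  intro i j hij
  rw [hd_extend]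
  rcases lt_or_gt_of_ne hij with h | h
  · exact key i j h
  · rw [hammingDist_comm]
    exact key j i h

/-- the embedding of a bipartite graph in words at a large distance `d` -/
lemma emb_word {m : ℕ} (F : SimpleGraph (Fin m)) (c : Fin m → Bool)
    (hc : ∀ v w, F.Adj v w → c v ≠ c w) (α : Type) [Fintype α] [DecidableEq α] (d : ℕ)
    (h2 : d + m * m ≤ Fintype.card α) (h3 : m * m ≤ d) (h4 : 4 * m + 3 ≤ d) :
    ∃ f : Fin m → Finset α,
      (∀ v w, F.Adj v w → (symmDiff (f v) (f w)).card = d) ∧
      (∀ v w, v ≠ w → ¬ F.Adj v w → 0 < (symmDiff (f v) (f w)).card ∧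
        (symmDiff (f v) (f w)).card < d) := by
  classical
  have hcard : Fintype.card (Fin d ⊕ (Fin m × Fin m)) ≤ Fintype.card α := by
    simp only [Fintype.card_sum, Fintype.card_prod, Fintype.card_fin]
    omega
  obtain ⟨ι⟩ := Function.Embedding.nonempty_of_card_le hcard
  have hcard2 : Fintype.card (Fin m × Fin m) ≤ Fintype.card (Fin d) := by
    simp only [Fintype.card_prod, Fintype.card_fin]
    exact h3
  obtain ⟨g⟩ := Function.Embedding.nonempty_of_card_le hcard2
  let X : Fin m → Finset (Fin m × Fin m) := fun v => {v} ×ˢ Z F c v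
  let A1 : Fin m → Finset (Fin d) := fun v =>
    if c v = false then (X v).map g else ((X v).map g)ᶜ
  let f0 : Fin m → Finset (Fin d ⊕ (Fin m × Fin m)) := fun v => (A1 v).disjSum (Y F c v)
  have hX : ∀ v, (X v).card = (Z F c v).card := by
    intro v
    simp [X]
  have hXX : ∀ v w, v ≠ w → (symmDiff (X v) (X w)).card = (Z F c v).card + (Z F c w).card := by
    intro v w hvw
    have e := card_symmDiff_add (X v) (X w)
    have h0 : X v ∩ X w = ∅ := by
      ext x
      simp only [X, Finset.mem_inter, Finset.mem_product, Finset.mem_singleton,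
        Finset.notMem_empty, iff_false, not_and]
      rintro ⟨h1, -⟩ h2
      exact absurd (h1.symm.trans h2) hvw
    rw [h0, Finset.card_empty, hX, hX] at e
    omega
  have hZ : ∀ v, (Z F c v).card ≤ m := card_Z_le F c
  have hZ1 : ∀ v, 1 ≤ (Z F c v).card := one_le_card_Z F c
  have hd : ∀ v w, (symmDiff (f0 v) (f0 w)).card =
      (symmDiff (A1 v) (A1 w)).card + (symmDiff (Y F c v) (Y F c w)).card := by
    intro v w
    simp only [f0, symmDiff_disjSum, Finset.card_disjSum]
  have hsame : ∀ v w, v ≠ w → c v = c w → 0 < (symmDiff (f0 v) (f0 w)).card ∧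
      (symmDiff (f0 v) (f0 w)).card < d := by
    intro v w hvw hcvw
    have e := card_symmDiff_add (Y F c v) (Y F c w)
    rw [Y_inter_same F c v w hvw hcvw, Finset.card_empty, card_Y, card_Y] at e
    have e2 := hXX v w hvw
    have := hZ v
    have := hZ w
    have := hZ1 v
    have := hZ1 w
    rw [hd]
    have e1 : (symmDiff (A1 v) (A1 w)).card = (symmDiff (X v) (X w)).card := by
      by_cases hv : c v = false
      · have hw : c w = false := hcvw ▸ hv
        simp only [A1, if_pos hv, if_pos hw, card_symmDiff_map]
      · have hw : ¬ c w = false := fun h' => hv (hcvw.trans h')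
        simp only [A1, if_neg hv, if_neg hw, compl_symmDiff_compl, card_symmDiff_map]
    omega
  have hcross : ∀ v w, c v = false → c w = true →
      (symmDiff (f0 v) (f0 w)).card + 2 * (if F.Adj v w then 0 else 1) = d := by
    intro v w hv hw
    have hw' : ¬ c w = false := by simp [hw]
    have hvw : v ≠ w := by
      rintro rfl
      exact hw' hv
    have e := card_symmDiff_add (Y F c v) (Y F c w)
    rw [Y_inter_cross F c v w hv hw, card_Y, card_Y] at e
    have e2 := hXX v w hvw
    have := hZ v
    have := hZ w
    have := hZ1 v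
    have := hZ1 w
    rw [hd]
    have e1 : symmDiff (A1 v) (A1 w) = (symmDiff ((X v).map g) ((X w).map g))ᶜ := by
      simp only [A1, if_pos hv, if_neg hw']
      ext x
      simp only [Finset.mem_symmDiff, Finset.mem_compl]
      tauto
    rw [e1, Finset.card_compl, card_symmDiff_map, e2, Fintype.card_fin]
    omega
  refine ⟨fun v => (f0 v).map ι, ?_, ?_⟩
  · intro v w hvw
    rw [card_symmDiff_map]
    have hne := hc v w hvw
    cases hv : c v
    · have hw : c w = true := by
        cases hw : c w
        · exact absurd (hv.trans hw.symm) hne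
        · rfl
      have := hcross v w hv hw
      rw [if_pos hvw] at this
      omega
    · have hw : c w = false := by
        cases hw : c w
        · rfl
        · exact absurd (hv.trans hw.symm) hne
      have := hcross w v hw hv
      rw [if_pos hvw.symm] at this
      rw [symmDiff_comm]
      omega
  · intro v w hne hvw
    rw [card_symmDiff_map]
    cases hv : c v <;> cases hw : c w
    · exact hsame v w hne (hv.trans hw.symm)
    · have := hcross v w hv hw
      rw [if_neg hvw] at this
      omega
    · have := hcross w v hw hv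
      rw [if_neg (fun h' => hvw h'.symm)] at this
      rw [symmDiff_comm]
      omega
    · exact hsame v w hne (hv.trans hw.symm)

end Pool.Agent.TH71.JH
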