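import Pool.Agent.H367R3.GSForest
import Pool.Agent.TH71.JH.Words
import Pool.Agent.TH71.JH.Trees

set_option autoImplicit false

open Finset

namespace Pool.Agent.TH71.JH

lemma bip_col {m : ℕ} (F : SimpleGraph (Fin m)) (hF : F.IsBipartite) :
    ∃ c : Fin m → Bool, ∀ v w, F.Adj v w → c v ≠ c w := by
  obtain ⟨col⟩ := hF
  refine ⟨fun v => decide (col v = 1), ?_⟩
  intro v w hvw h
  apply col.valid hvw
  have h' : (col v = 1) ↔ (col w = 1) := by simpa using h
  have h1 := (col v).isLt
  have h2 := (col w).isLt
  rw [Fin.ext_iff, Fin.ext_iff] at h'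
  rw [Fin.ext_iff]
  simp only [Fin.val_one] at h'
  omega

/-- two letters: words are sets -/
lemma two_letters {m : ℕ} (F : SimpleGraph (Fin m)) (k C : ℕ) (α A : Type) [Fintype α]
    [DecidableEq α] [DecidableEq A] (D : Set ℕ) (a b : A) (hab : a ≠ b)
    (hA : ∀ x, x = a ∨ x = b)
    (hC : (Layer α Set.univ D).CliqueFree (k + 1) → ¬ F.IsIndContained (Layer α Set.univ D) →
      (Layer α Set.univ D).Colorable C)
    (hG : (Word α A D).CliqueFree (k + 1)) (hI : ¬ F.IsIndContained (Word α A D)) :
    (Word α A D).Colorable C := by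
  have hne : ∀ S T : Finset α, S ≠ T → ind a b S ≠ ind a b T := by
    intro S T hST h
    apply hST
    ext i
    have := congrFun h i
    simp only [ind] at this
    by_cases h1 : i ∈ S <;> by_cases h2 : i ∈ T <;> simp [h1, h2, hab, hab.symm] at this ⊢
  have hemb : (Layer α Set.univ D).IsIndContained (Word α A D) := by
    refine mkEmb _ _ (fun S => ind a b S.1) ?_ ?_
    · rintro ⟨S, hS⟩ ⟨T, hT⟩ ⟨h1, h2⟩
      refine ⟨hne S T (fun h => h1 (Subtype.ext h)), ?_⟩
      rw [hd_ind a b hab]
      exact h2
    · rintro ⟨S, hS⟩ ⟨T, hT⟩ h1 h2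
      have h3 := hne S T (fun h => h1 (Subtype.ext h))
      refine ⟨h3, ?_⟩
      rintro ⟨-, h4⟩
      rw [hd_ind a b hab] at h4
      exact h2 ⟨h1, h4⟩
  obtain ⟨col⟩ := hC (hG.comap hemb.isContained) (fun h => hI (h.trans hemb))
  have hx : ∀ x : α → A, ind a b (Finset.univ.filter fun i => x i = a) = x := by
    intro x
    funext i
    simp only [ind, Finset.mem_filter, Finset.mem_univ, true_and]
    split_ifs with h
    · exact h.symm
    · exact ((hA (x i)).resolve_left h).symm
  refine ⟨SimpleGraph.Coloring.mk
    (fun x => col ⟨Finset.univ.filter fun i => x i = a, Set.mem_univ _⟩) ?_⟩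
  rintro x y ⟨hxy, hD⟩
  refine col.valid ⟨?_, ?_⟩
  · intro h
    apply hxy
    have h' : (Finset.univ.filter fun i => x i = a) = (Finset.univ.filter fun i => y i = a) :=
      congrArg Subtype.val h
    calc x = ind a b (Finset.univ.filter fun i => x i = a) := (hx x).symm
      _ = ind a b (Finset.univ.filter fun i => y i = a) := by rw [h']
      _ = y := hx y
  · show (symmDiff (Finset.univ.filter fun i => x i = a)
      (Finset.univ.filter fun i => y i = a)).card ∈ D
    rw [← hd_ind a b hab, hx, hx]
    exact hD

lemma self_color (α A : Type) [Fintype α] [Fintype A] [DecidableEq A] (D : Set ℕ) (k N : ℕ)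
    (hk : Fintype.card A ≤ k) (hn1 : 1 ≤ Fintype.card α) (hn : Fintype.card α ≤ N) :
    (Word α A D).Colorable (k ^ N) := by
  classical
  have hcol : (Word α A D).Coloring (α → A) := SimpleGraph.Coloring.mk (fun x => x) (by
    intro x y hxy
    exact hxy.1)
  have h1 := hcol.colorable
  rw [Fintype.card_fun] at h1
  refine h1.mono ?_
  rcases Nat.eq_zero_or_pos k with h0 | h0
  · have : Fintype.card A = 0 := by omega
    rw [this, Nat.zero_pow hn1]
    exact Nat.zero_le _
  · calc Fintype.card A ^ Fintype.card α ≤ k ^ Fintype.card α := Nat.pow_le_pow_left hk _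
      _ ≤ k ^ N := Nat.pow_le_pow_right h0 hn

/-- the number of letters is bounded by the clique number -/
lemma card_letters (α A : Type) [Fintype α] [Fintype A] [DecidableEq A] (D : Set ℕ) (k d : ℕ)
    (hG : (Word α A D).CliqueFree (k + 1)) (hd : d ∈ D) (h1 : 1 ≤ d) (h2 : d ≤ Fintype.card α) :
    Fintype.card A ≤ k := by
  classical
  by_contra hcon
  have hc : Fintype.card (Fin (k + 1)) ≤ Fintype.card A := by
    rw [Fintype.card_fin]
    omega
  obtain ⟨g⟩ := Function.Embedding.nonempty_of_card_le hc
  have h2' : d ≤ (Finset.univ : Finset α).card := by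
    rw [Finset.card_univ]
    exact h2
  obtain ⟨U, -, hU⟩ := Finset.exists_subset_card_eq h2'
  have hdist : ∀ i j, i ≠ j → hammingDist (fun x => if x ∈ U then g i else g 0)
      (fun x => if x ∈ U then g j else g 0) = d := by
    intro i j hij
    rw [← hU]
    unfold hammingDist
    congr 1
    ext x
    rw [Finset.mem_filter]
    have : g i ≠ g j := fun h => hij (g.injective h)
    by_cases hx : x ∈ U <;> simp [hx, this]
  refine noClique _ k hG (fun i x => if x ∈ U then g i else g 0) ?_
  intro i j hij
  refine ⟨?_, ?_⟩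
  · intro h
    have := hdist i j hij
    rw [h, hammingDist_self] at this
    omega
  · rw [hdist i j hij]
    exact hd

lemma clique_words (α A : Type) [Fintype α] [DecidableEq α] [DecidableEq A] (D : Set ℕ)
    (k d : ℕ) (hG : (Word α A D).CliqueFree (k + 1)) (hd : d ∈ D) (h1 : 1 ≤ d)
    (f : Fin (k + 1) → α → A) (hf : ∀ i j, i ≠ j → hammingDist (f i) (f j) = d) : False := by
  refine noClique _ k hG f ?_
  intro i j hij
  refine ⟨?_, ?_⟩
  · intro h
    have := hf i j hij
    rw [h, hammingDist_self] at this
    omega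
  · rw [hf i j hij]
    exact hd

/-- small distances are odd and less than `2 k` -/
lemma small_dist (α A : Type) [Fintype α] [DecidableEq α] [DecidableEq A] (D : Set ℕ)
    (z a b : A) (hza : a ≠ z) (hzb : b ≠ z) (hab : a ≠ b)
    (k d : ℕ) (hG : (Word α A D).CliqueFree (k + 1)) (hd : d ∈ D) (h1 : 1 ≤ d)
    (h2 : (k + 1) * (d + 3) ≤ 2 * Fintype.card α) : d < 2 * k := by
  rcases Nat.even_or_odd' d with ⟨h, hh | hh⟩
  · exfalso
    have h3 : h - h + (k + 1) * h ≤ Fintype.card α := by
      have e : (k + 1) * (d + 3) = 2 * ((k + 1) * h) + 3 * (k + 1) := by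
        rw [hh]
        ring
      omega
    obtain ⟨f, -, hf⟩ := sunflower α (k + 1) h h (le_refl _) h3
    refine clique_words α A D k d hG hd h1 (fun i => ind a z (f i)) ?_
    intro i j hij
    rw [hd_ind a z hza, hf i j hij, hh]
  · by_contra hcon
    have h3 : (k + 1) * ((h + 1) + 1) ≤ Fintype.card α := by
      have e : (k + 1) * (d + 3) = 2 * ((k + 1) * ((h + 1) + 1)) := by
        rw [hh]
        ring
      omega
    obtain ⟨f, hf⟩ := odd_clique α A z a b hza hzb hab k (h + 1) (by omega) h3
    refine clique_words α A D k d hG hd h1 f ?_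
    intro i j hij
    have := hf i j hij
    omega

/-- Part 2. -/
theorem word_main {m : ℕ} (F : SimpleGraph (Fin m)) (hF : F.IsAcyclic) (k : ℕ) :
    ∃ C : ℕ, ∀ (α A : Type) [Fintype α] [Fintype A] [DecidableEq A] (D : Set ℕ),
      (Word α A D).CliqueFree (k + 1) → ¬ F.IsIndContained (Word α A D) →
      (Word α A D).Colorable C := by
  classical
  obtain ⟨C1, hC1⟩ := layer_main F hF.isBipartite k
  obtain ⟨c, hc⟩ := bip_col F hF.isBipartite
  obtain ⟨T, hT, ⟨eT⟩⟩ := Pool.Agent.H367R3.forest_in_tree F hF
  set N1 := (k + 1) * (2 * k * m + 3) with hN1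
  set h1 := m * m + 4 * m + 3 with hh1
  set N2 := (k + 1) * (h1 + 3) with hN2
  refine ⟨C1 + 1 + k ^ N1 + k ^ N2 + k ^ (m * m), ?_⟩
  intro α A _ _ _ D hG hI
  have hone : ∀ (_ : ∀ x y, ¬ (Word α A D).Adj x y),
      (Word α A D).Colorable (C1 + 1 + k ^ N1 + k ^ N2 + k ^ (m * m)) := by
    intro hno
    have hcol : (Word α A D).Coloring (Fin 1) := SimpleGraph.Coloring.mk (fun _ => 0) (by
      intro x y hxy
      exact absurd hxy (hno x y))
    have h2 := hcol.colorable
    rw [Fintype.card_fin] at h2
    refine h2.mono ?_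
    omega
  by_cases hD : ∃ d, d ∈ D ∧ 1 ≤ d ∧ d ≤ Fintype.card α
  swap
  · apply hone
    rintro x y ⟨hxy, hd⟩
    exact hD ⟨_, hd, hammingDist_pos.2 hxy, hammingDist_le_card_fintype⟩
  have hq : Fintype.card A ≤ k := by
    obtain ⟨d, hd, hd1, hd2⟩ := hD
    exact card_letters α A D k d hG hd hd1 hd2
  have hn1 : 1 ≤ Fintype.card α := by
    obtain ⟨d, hd, hd1, hd2⟩ := hD
    omega
  rcases Nat.lt_or_ge (Fintype.card A) 2 with hq2 | hq2
  · have hsub : Subsingleton A := by
      rw [← Fintype.card_le_one_iff_subsingleton]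
      omega
    apply hone
    rintro x y ⟨hxy, -⟩
    exact hxy (Subsingleton.elim x y)
  rcases Nat.lt_or_ge (Fintype.card A) 3 with hq3 | hq3
  · -- two letters
    have hq2' : Fintype.card A = 2 := by omega
    have e : A ≃ Fin 2 := Fintype.equivFinOfCardEq hq2'
    have := two_letters F k C1 α A D (e.symm 0) (e.symm 1) (by simp) (by
      intro x
      rcases Fin.exists_fin_two.1 ⟨e x, rfl⟩ with h | h
      · left
        rw [← h, e.symm_apply_apply]
      · right
        rw [← h, e.symm_apply_apply]) (hC1 α Set.univ D) hG hI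
    refine this.mono ?_
    omega
  · -- three letters or more
    have hc3 : Fintype.card (Fin 3) ≤ Fintype.card A := by
      rw [Fintype.card_fin]
      exact hq3
    obtain ⟨g⟩ := Function.Embedding.nonempty_of_card_le hc3
    have hza : g 1 ≠ g 0 := fun h => by simpa using g.injective h
    have hzb : g 2 ≠ g 0 := fun h => by simpa using g.injective h
    have hab : g 1 ≠ g 2 := fun h => by simpa using g.injective h
    by_cases hs : ∃ d, d ∈ D ∧ 1 ≤ d ∧ d ≤ Fintype.card α ∧
      (k + 1) * (d + 3) ≤ 2 * Fintype.card α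
    · -- small distances
      by_cases hN : Fintype.card α ≤ N1
      · refine (self_color α A D k N1 hq hn1 hN).mono ?_
        omega
      exfalso
      let P : ℕ → Prop := fun d => d ∈ D ∧ 1 ≤ d ∧ d ≤ Fintype.card α ∧
        (k + 1) * (d + 3) ≤ 2 * Fintype.card α
      have hP : ∀ d, P d → d < 2 * k := fun d hd =>
        small_dist α A D (g 0) (g 1) (g 2) hza hzb hab k d hG hd.1 hd.2.1 hd.2.2.2
      obtain ⟨d1, hd1⟩ := hs
      have hd1' : P d1 := hd1
      have hspec : P (Nat.findGreatest P (2 * k)) := Nat.findGreatest_spec (hP d1 hd1').le hd1'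
      have hmax : ∀ d, P d → d ≤ Nat.findGreatest P (2 * k) := fun d hd =>
        Nat.le_findGreatest (hP d hd).le hd
      set d := Nat.findGreatest P (2 * k) with hd
      have hdk := hP d hspec
      have hmd : m * d ≤ 2 * k * m := by
        calc m * d ≤ m * (2 * k) := Nat.mul_le_mul_left _ hdk.le
          _ = 2 * k * m := by ring
      have hNN : 2 * k * m + 3 ≤ N1 := Nat.le_mul_of_pos_left _ (Nat.succ_pos k)
      obtain ⟨f, hf1, hf2⟩ := tree_family d m (Fin (m + 1)) T hT (Fintype.card_fin _) α (by omega)
      have hTW : T.IsIndContained (Word α A D) := by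
        refine mkEmb T _ (fun v => ind (g 1) (g 0) (f v)) ?_ ?_
        · intro v w hvw
          have h2 := hf1 v w hvw
          rw [← hd_ind (g 1) (g 0) hza] at h2
          refine ⟨?_, ?_⟩
          · intro h3
            rw [h3, hammingDist_self] at h2
            have := hspec.2.1
            omega
          · rw [h2]
            exact hspec.1
        · intro v w hne hvw
          obtain ⟨r, hr, hr1, hr2⟩ := hf2 v w hne hvw
          rw [← hd_ind (g 1) (g 0) hza] at hr2
          have hd1 := hspec.2.1
          have hrd : 2 * d ≤ r * d := Nat.mul_le_mul_right d hr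
          refine ⟨?_, ?_⟩
          · intro h3
            rw [h3, hammingDist_self] at hr2
            omega
          · rintro ⟨-, h3⟩
            rw [hr2] at h3
            have h4 : (k + 1) * (r * d + 3) ≤ N1 := Nat.mul_le_mul_left _ (by omega)
            have h5 := hmax (r * d) ⟨h3, by omega, by omega, by omega⟩
            omega
      exact hI (SimpleGraph.IsIndContained.trans ⟨eT⟩ hTW)
    · -- no small distances
      have hspec := Nat.find_spec hD
      have hmin : ∀ d, d ∈ D → 1 ≤ d → d ≤ Fintype.card α → Nat.find hD ≤ d :=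
        fun d h2 h3 h4 => Nat.find_min' hD ⟨h2, h3, h4⟩
      set d := Nat.find hD with hd
      obtain ⟨hdD, hd1, hdn⟩ := hspec
      have hbig : 2 * Fintype.card α < (k + 1) * (d + 3) := by
        by_contra hcon
        exact hs ⟨d, hdD, hd1, hdn, by omega⟩
      rcases Nat.lt_or_ge d h1 with hdh | hdh
      · have h2 : (k + 1) * (d + 3) ≤ N2 := Nat.mul_le_mul_left _ (by omega)
        refine (self_color α A D k N2 hq hn1 (by omega)).mono ?_
        omega
      rcases Nat.lt_or_ge (Fintype.card α) (m * m) with hnm | hnm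
      · refine (self_color α A D k (m * m) hq hn1 hnm.le).mono ?_
        omega
      rcases Nat.lt_or_ge (Fintype.card α) (d + m * m) with hdm | hdm
      · -- colour by a restriction
        have hnm' : m * m ≤ (Finset.univ : Finset α).card := by
          rw [Finset.card_univ]
          exact hnm
        obtain ⟨K, -, hK⟩ := Finset.exists_subset_card_eq hnm'
        have hcol : (Word α A D).Coloring (K → A) := SimpleGraph.Coloring.mk
          (fun x i => x i.1) (by
            rintro x y ⟨hxy, hxD⟩ heq
            have h2 : hammingDist x y ≤ (Kᶜ).card := by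
              unfold hammingDist
              apply Finset.card_le_card
              intro i hi
              rw [Finset.mem_filter] at hi
              rw [Finset.mem_compl]
              intro hiK
              exact hi.2 (congrFun heq ⟨i, hiK⟩)
            rw [Finset.card_compl, hK] at h2
            have h3 := hmin _ hxD (hammingDist_pos.2 hxy) hammingDist_le_card_fintype
            omega)
        have h2 := hcol.colorable
        rw [Fintype.card_fun, Fintype.card_coe, hK] at h2
        refine h2.mono ?_
        have h3 : Fintype.card A ^ (m * m) ≤ k ^ (m * m) := Nat.pow_le_pow_left hq _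
        omega
      · exfalso
        obtain ⟨f, hf1, hf2⟩ := emb_word F c hc α d hdm (by omega) (by omega)
        apply hI
        refine mkEmb F _ (fun v => ind (g 1) (g 0) (f v)) ?_ ?_
        · intro v w hvw
          have h2 := hf1 v w hvw
          rw [← hd_ind (g 1) (g 0) hza] at h2
          refine ⟨?_, ?_⟩
          · intro h3
            rw [h3, hammingDist_self] at h2
            omega
          · rw [h2]
            exact hdD
        · intro v w hne hvw
          obtain ⟨hr1, hr2⟩ := hf2 v w hne hvw
          rw [← hd_ind (g 1) (g 0) hza] at hr1 hr2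
          refine ⟨?_, ?_⟩
          · intro h3
            rw [h3, hammingDist_self] at hr1
            omega
          · rintro ⟨-, h3⟩
            have := hmin _ h3 hr1 hammingDist_le_card_fintype
            omega

end Pool.Agent.TH71.JH
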